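import Pool.Agent.H65.CRG.TD
import Pool.Agent.H56.CV.AF1
import Pool.Agent.H37.CV.All

/-!
# (H1) growth of the L-functions, general degree
-/

set_option autoImplicit false

open NumberField NumberField.InfinitePlace Complex Filter Topology MeasureTheory

namespace Pool.Agent.H61.CRG

open Pool.Agent.H28.RC Pool.Agent.H25.HK Pool.Agent.H37.CV Pool.Agent.H65.CRZ
  Pool.Agent.H65.CRG

section

variable {K : Type} [Field K] [NumberField K]

theorem cnd_eq_cB (χ : RCC K) :
    cnd K χ.f = ((2 * Real.pi) ^ nrComplexPlaces K * cB K χ.f) ^ 2 := by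
  have h := Pool.Agent.H56.CV.cnd_pos χ
  unfold cB
  have h1 : (2 * Real.pi) ^ nrComplexPlaces K *
      (Real.sqrt (cnd K χ.f) / (2 * Real.pi) ^ nrComplexPlaces K) = Real.sqrt (cnd K χ.f) := by
    field_simp
  rw [h1, Real.sq_sqrt h.le]

theorem strip_bd_pow (k : ℕ) (Z : ℂ → ℂ) (hZ : Differentiable ℂ Z) (C A B : ℝ)
    (hp : ∀ s : ℂ, |s.re| ≤ 3 / 2 → ‖Z s‖ ≤ C * (1 + |s.im|) ^ A)
    (hl : ∀ s : ℂ, s.re = -(3 / 2) → ‖Z s‖ ≤ B * ‖s + 4‖ ^ k)
    (hr : ∀ s : ℂ, s.re = 3 / 2 → ‖Z s‖ ≤ B) (s : ℂ) (h1 : -(3 / 2) ≤ s.re)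
    (h2 : s.re ≤ 3 / 2) : ‖Z s‖ ≤ B * ‖s + 4‖ ^ k := by
  have hre : ∀ z : ℂ, -(3 / 2) ≤ z.re → 1 ≤ ‖z + 4‖ := by
    intro z hz
    have h3 := Complex.re_le_norm (z + 4)
    have h4 : (z + 4).re = z.re + 4 := by simp
    rw [h4] at h3
    linarith
  have hne : ∀ z : ℂ, -(3 / 2) ≤ z.re → (z + 4) ^ k ≠ 0 := by
    intro z hz
    refine pow_ne_zero k fun h4 => ?_
    have h3 := hre z hz
    rw [h4, norm_zero] at h3
    linarith
  have hcl : closure (Complex.re ⁻¹' Set.Ioo (-(3 / 2) : ℝ) (3 / 2)) ⊆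
      Complex.re ⁻¹' Set.Icc (-(3 / 2) : ℝ) (3 / 2) :=
    closure_minimal (Set.preimage_mono Set.Ioo_subset_Icc_self)
      (isClosed_Icc.preimage Complex.continuous_re)
  have key : ‖Z s / (s + 4) ^ k‖ ≤ B := by
    refine PhragmenLindelof.vertical_strip (a := -(3 / 2)) (b := 3 / 2)
      (f := fun z => Z z / (z + 4) ^ k) ?_ ?_ ?_ ?_ h1 h2
    · refine DifferentiableOn.diffContOnCl fun z hz => ?_
      have h3 := hcl hz
      refine DifferentiableAt.differentiableWithinAt ?_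
      exact (hZ z).div (by fun_prop) (hne z h3.1)
    · refine ⟨1, ?_, |A|, ?_⟩
      · rw [lt_div_iff₀ (by norm_num)]
        have := Real.pi_gt_three
        linarith
      · refine Asymptotics.IsBigO.of_bound |C| ?_
        refine eventually_inf_principal.2 (Eventually.of_forall fun z hz => ?_)
        have hz' : |z.re| ≤ 3 / 2 := abs_le.2 ⟨hz.1.le, hz.2.le⟩
        have h3 := hp z hz'
        have h4 := hre z hz.1.le
        have h5 : (1 : ℝ) ≤ ‖z + 4‖ ^ k := one_le_pow₀ h4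
        have h6 : (1 + |z.im|) ^ A ≤ Real.exp (|A| * Real.exp (1 * |z.im|)) := by
          have h7 : 0 < 1 + |z.im| := by positivity
          have h8 : Real.log (1 + |z.im|) ≤ |z.im| := by
            have := Real.log_le_sub_one_of_pos h7
            linarith
          have h9 : 0 ≤ Real.log (1 + |z.im|) := Real.log_nonneg (by linarith [abs_nonneg z.im])
          rw [Real.rpow_def_of_pos h7]
          refine Real.exp_le_exp.2 ?_
          have h10 : |z.im| ≤ Real.exp (1 * |z.im|) := by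
            have := Real.add_one_le_exp (1 * |z.im|)
            linarith
          calc Real.log (1 + |z.im|) * A ≤ Real.log (1 + |z.im|) * |A| :=
                mul_le_mul_of_nonneg_left (le_abs_self A) h9
            _ ≤ Real.exp (1 * |z.im|) * |A| :=
                mul_le_mul_of_nonneg_right (h8.trans h10) (abs_nonneg A)
            _ = |A| * Real.exp (1 * |z.im|) := mul_comm _ _
        rw [norm_div, norm_pow, Real.norm_of_nonneg (Real.exp_pos _).le]
        calc ‖Z z‖ / ‖z + 4‖ ^ k ≤ ‖Z z‖ := div_le_self (norm_nonneg _) h5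
          _ ≤ C * (1 + |z.im|) ^ A := h3
          _ ≤ |C| * (1 + |z.im|) ^ A :=
              mul_le_mul_of_nonneg_right (le_abs_self C) (Real.rpow_nonneg (by positivity) _)
          _ ≤ |C| * Real.exp (|A| * Real.exp (1 * |z.im|)) :=
              mul_le_mul_of_nonneg_left h6 (abs_nonneg C)
    · intro z hz
      have h3 := hl z hz
      have h4 := hre z (by rw [hz])
      rw [norm_div, norm_pow, div_le_iff₀ (by positivity)]
      exact h3
    · intro z hz
      have h3 := hr z hz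
      have h4 := hre z (by rw [hz]; norm_num)
      rw [norm_div, norm_pow]
      exact (div_le_self (norm_nonneg _) (one_le_pow₀ h4)).trans h3
  have h3 := hre s h1
  rw [norm_div, norm_pow, div_le_iff₀ (by positivity)] at key
  exact key

end

theorem h1_core (hHE : T_HEc) (hGW : T_GWc) (hEN : T_EN) (hGB : T_GB) (hZK : T_ZK)
    (h1 : Pool.Agent.H65.CRZ.T_H2) : Pool.Agent.H65.CRG.T_H1 := by
  intro K _ _ _
  obtain ⟨C₂, hC₂, hL, -⟩ := h1 K
  obtain ⟨C₀, hC₀⟩ := hGB.2 2
  set n : ℕ := nrComplexPlaces K with hn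
  set S : ℝ := ∑' I : NI K, nm I.1 ^ (-(1 / 2 + (2 : ℕ) : ℝ)) with hS
  set E : ℝ := ((2 * Real.pi) ^ n) ^ 4 * (16 * |C₀|) ^ n * |S| with hE
  have hE0 : 0 ≤ E := by positivity
  set D : ℝ := E + C₂ with hD
  have hD1 : 1 ≤ D := by linarith
  set F : ℝ := (3 : ℝ) ^ (4 * n) * D with hF
  have h31 : (1 : ℝ) ≤ (3 : ℝ) ^ (4 * n) := one_le_pow₀ (by norm_num)
  have hF1 : 1 ≤ F := by
    rw [hF]
    calc (1 : ℝ) = 1 * 1 := by norm_num
      _ ≤ (3 : ℝ) ^ (4 * n) * D := mul_le_mul h31 hD1 (by norm_num) (by positivity)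
  have hlog : 0 ≤ Real.log F / Real.log 2 :=
    div_nonneg (Real.log_nonneg hF1) (Real.log_nonneg (by norm_num))
  refine ⟨((4 * n + 4 : ℕ) : ℝ) + Real.log F / Real.log 2, ?_, ?_⟩
  · have h4 : (1 : ℝ) ≤ ((4 * n + 4 : ℕ) : ℝ) := by
      exact_mod_cast (by omega : 1 ≤ 4 * n + 4)
    linarith
  intro χ hf hA Z hZ s hs
  set A : ℝ := cB K χ.f with hAdef
  have hA4 : 1 ≤ A ^ 4 := one_le_pow₀ hA
  have hx2 : 2 ≤ A * (2 + |s.im|) := by nlinarith [abs_nonneg s.im]
  have hright : ∀ z : ℂ, 3 / 2 ≤ z.re → ‖Z z‖ ≤ C₂ := by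
    intro z hz
    rw [hZ.2 z (by linarith)]
    exact (hL χ z hz).1
  have main : ‖Z s‖ ≤ F * (A * (2 + |s.im|)) ^ (4 * n + 4) := by
    rcases le_or_gt s.re (3 / 2) with h2 | h2
    · obtain ⟨C, a, hp⟩ := Pool.Agent.H56.CV.poly_bd hHE hGW χ hZ (3 / 2)
      have h3 : ‖Z s‖ ≤ D * A ^ 4 * ‖s + 4‖ ^ (4 * n) := by
        refine strip_bd_pow (4 * n) Z hZ.1 C a (D * A ^ 4) hp ?_ ?_ s (by linarith) h2
        · intro z hz
          have h4 := Pool.Agent.H56.CV.left_bd hEN hZK 2 (by norm_num) hC₀ χ hf hZ z.im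
          have h5 : (1 / 2 - ((2 : ℕ) : ℂ) + z.im * I : ℂ) = z := by
            apply Complex.ext
            · simp [hz]
              norm_num
            · simp
          rw [h5, cnd_eq_cB, ← hS, ← hn, ← hAdef] at h4
          have h6 : 1 + |z.im| ≤ 2 * ‖z + 4‖ := by
            have h7 := Complex.abs_im_le_norm (z + 4)
            have h8 := Complex.re_le_norm (z + 4)
            have h9 : (z + 4).re = z.re + 4 := by simp
            have h10 : (z + 4).im = z.im := by simp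
            rw [h10] at h7
            rw [h9, hz] at h8
            linarith
          have h7 : (1 + |z.im|) ^ (2 * 2) ≤ 16 * ‖z + 4‖ ^ 4 := by
            calc (1 + |z.im|) ^ (2 * 2) ≤ (2 * ‖z + 4‖) ^ (2 * 2) :=
                  pow_le_pow_left₀ (by positivity) h6 _
              _ = 16 * ‖z + 4‖ ^ 4 := by ring
          have h8 : (|C₀| * (1 + |z.im|) ^ (2 * 2)) ^ n ≤ (|C₀| * (16 * ‖z + 4‖ ^ 4)) ^ n :=
            pow_le_pow_left₀ (by positivity) (mul_le_mul_of_nonneg_left h7 (abs_nonneg _)) n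
          calc ‖Z z‖ ≤ (((2 * Real.pi) ^ n * A) ^ 2) ^ 2 *
                (C₀ * (1 + |z.im|) ^ (2 * 2)) ^ n * S := h4
            _ ≤ |(((2 * Real.pi) ^ n * A) ^ 2) ^ 2 *
                (C₀ * (1 + |z.im|) ^ (2 * 2)) ^ n * S| := le_abs_self _
            _ = (((2 * Real.pi) ^ n * A) ^ 2) ^ 2 *
                (|C₀| * (1 + |z.im|) ^ (2 * 2)) ^ n * |S| := by
                rw [abs_mul, abs_mul, abs_pow (C₀ * (1 + |z.im|) ^ (2 * 2)), abs_mul C₀,
                  abs_of_nonneg (by positivity : (0 : ℝ) ≤ (((2 * Real.pi) ^ n * A) ^ 2) ^ 2),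
                  abs_of_nonneg (by positivity : (0 : ℝ) ≤ (1 + |z.im|) ^ (2 * 2))]
            _ ≤ (((2 * Real.pi) ^ n * A) ^ 2) ^ 2 *
                (|C₀| * (16 * ‖z + 4‖ ^ 4)) ^ n * |S| := by
                exact mul_le_mul_of_nonneg_right
                  (mul_le_mul_of_nonneg_left h8 (by positivity)) (abs_nonneg _)
            _ = E * A ^ 4 * ‖z + 4‖ ^ (4 * n) := by
                rw [hE, pow_mul ‖z + 4‖ 4 n]
                have e1 : |C₀| * (16 * ‖z + 4‖ ^ 4) = (16 * |C₀|) * ‖z + 4‖ ^ 4 := by ring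
                rw [e1, mul_pow (16 * |C₀|) (‖z + 4‖ ^ 4) n]
                ring
            _ ≤ D * A ^ 4 * ‖z + 4‖ ^ (4 * n) := by
                refine mul_le_mul_of_nonneg_right (mul_le_mul_of_nonneg_right ?_ ?_) ?_
                · linarith
                · linarith
                · positivity
        · intro z hz
          have h4 := hright z (by rw [hz])
          nlinarith
      have h4 : ‖s + 4‖ ≤ 3 * (2 + |s.im|) := by
        have h5 := Complex.norm_le_abs_re_add_abs_im (s + 4)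
        have h9 : (s + 4).re = s.re + 4 := by simp
        have h10 : (s + 4).im = s.im := by simp
        rw [h9, h10, abs_of_nonneg (by linarith : 0 ≤ s.re + 4)] at h5
        linarith [abs_nonneg s.im]
      have hm1 : (1 : ℝ) ≤ (2 + |s.im|) ^ 4 := one_le_pow₀ (by linarith [abs_nonneg s.im])
      have hA4n : (1 : ℝ) ≤ A ^ (4 * n) := one_le_pow₀ hA
      calc ‖Z s‖ ≤ D * A ^ 4 * ‖s + 4‖ ^ (4 * n) := h3
        _ ≤ D * A ^ 4 * (3 * (2 + |s.im|)) ^ (4 * n) :=
            mul_le_mul_of_nonneg_left (pow_le_pow_left₀ (norm_nonneg _) h4 _) (by positivity)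
        _ = F * ((A ^ 4 * 1) * (1 * (2 + |s.im|) ^ (4 * n))) := by
            rw [hF, mul_pow 3 (2 + |s.im|) (4 * n)]
            ring
        _ ≤ F * ((A ^ 4 * (2 + |s.im|) ^ 4) * (A ^ (4 * n) * (2 + |s.im|) ^ (4 * n))) := by
            refine mul_le_mul_of_nonneg_left ?_ (by linarith)
            refine mul_le_mul ?_ ?_ (by positivity) (by positivity)
            · exact mul_le_mul_of_nonneg_left hm1 (by linarith)
            · exact mul_le_mul_of_nonneg_right hA4n (by positivity)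
        _ = F * (A * (2 + |s.im|)) ^ (4 * n + 4) := by
            rw [pow_add, mul_pow A (2 + |s.im|) (4 * n), mul_pow A (2 + |s.im|) 4]
            ring
    · have h3 := hright s h2.le
      have h4 : (1 : ℝ) ≤ (A * (2 + |s.im|)) ^ (4 * n + 4) := one_le_pow₀ (by linarith)
      have h5 : C₂ ≤ F := by
        rw [hF]
        calc C₂ ≤ D := by linarith
          _ = 1 * D := (one_mul D).symm
          _ ≤ (3 : ℝ) ^ (4 * n) * D := mul_le_mul_of_nonneg_right h31 (by linarith)
      calc ‖Z s‖ ≤ F * 1 := by linarith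
        _ ≤ F * (A * (2 + |s.im|)) ^ (4 * n + 4) := mul_le_mul_of_nonneg_left h4 (by linarith)
  refine main.trans ?_
  have hx0 : 0 < A * (2 + |s.im|) := by linarith
  rw [Real.rpow_add hx0, Real.rpow_natCast, mul_comm F]
  refine mul_le_mul_of_nonneg_left ?_ (pow_nonneg hx0.le _)
  calc F = (2 : ℝ) ^ (Real.log F / Real.log 2) := by
        rw [Real.rpow_def_of_pos (by norm_num), mul_div_cancel₀ _ (Real.log_pos (by norm_num)).ne',
          Real.exp_log (by linarith)]
    _ ≤ (A * (2 + |s.im|)) ^ (Real.log F / Real.log 2) :=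
        Real.rpow_le_rpow (by norm_num) hx2 hlog

/-- (H1) growth of the L-functions. -/
theorem pf_H1 (h1 : Pool.Agent.H65.CRZ.T_H2) (_h2 : Pool.Agent.H65.CRZ.T_G1) :
    Pool.Agent.H65.CRG.T_H1 :=
  h1_core T_HEc_proved c_GW a_EN a_GB a_ZK h1

end Pool.Agent.H61.CRG
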